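import Mathlib

/-!
# The tadpole `T_{6,2}` is a unicyclic graph of girth six all of whose matrices have the SSP
-/

set_option linter.unusedSimpArgs false
set_option linter.unusedVariables false

open Matrix

namespace Pool.Agent.Results.MP_34deb4_co.TadpoleSSP

/-- `𝒮(G)`: the real symmetric matrices whose off-diagonal nonzero pattern is the edge set of `G`;
the diagonal is free. -/
def S {n : ℕ} (G : SimpleGraph (Fin n)) : Set (Matrix (Fin n) (Fin n) ℝ) :=
  {A | A.IsSymm ∧ ∀ i j, i ≠ j → (A i j ≠ 0 ↔ G.Adj i j)}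

/-- The Strong Spectral Property of a matrix `A`: the only symmetric `X` with `A ∘ X = 0`,
`I ∘ X = 0` and `AX - XA = 0` is `X = 0`. -/
def HasSSP {n : ℕ} (A : Matrix (Fin n) (Fin n) ℝ) : Prop :=
  ∀ X : Matrix (Fin n) (Fin n) ℝ, X.IsSymm → A ⊙ X = 0 →
    (1 : Matrix (Fin n) (Fin n) ℝ) ⊙ X = 0 → A * X - X * A = 0 → X = 0

/-- The tadpole graph `T_{6,2}`: the path `0 - 1` is joined by the edge `1 - 2` to the vertex `2`
of the six-cycle `2 - 3 - 4 - 5 - 6 - 7 - 2`. -/
def tadpole : SimpleGraph (Fin 8) :=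
  SimpleGraph.fromRel fun i j => (i, j) ∈
    ({(0, 1), (1, 2), (2, 3), (3, 4), (4, 5), (5, 6), (6, 7), (7, 2)} : Finset (Fin 8 × Fin 8))

instance : DecidableRel tadpole.Adj := fun i j => by
  unfold tadpole
  simp only [SimpleGraph.fromRel_adj]
  infer_instance


theorem key (A X : Matrix (Fin 8) (Fin 8) ℝ) (hA : A ∈ S tadpole) (hX : X.IsSymm)
    (hAX : A ⊙ X = 0) (hIX : (1 : Matrix (Fin 8) (Fin 8) ℝ) ⊙ X = 0)
    (hc : A * X - X * A = 0) : X = 0 := by
  obtain ⟨hs, hp⟩ := hA
  have xs : ∀ i j, X j i = X i j := fun i j => hX.apply i j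
  have as : ∀ i j, A j i = A i j := fun i j => hs.apply i j
  have hx0 : ∀ i, X i i = 0 := fun i => by
    have := congrFun (congrFun hIX i) i
    simpa [Matrix.hadamard] using this
  have hz : ∀ i j, i ≠ j → ¬ tadpole.Adj i j → A i j = 0 := fun i j hij h => by
    by_contra hne
    exact h ((hp i j hij).1 hne)
  have hnz : ∀ i j, i ≠ j → tadpole.Adj i j → A i j ≠ 0 := fun i j hij h => (hp i j hij).2 h
  have hxz : ∀ i j, i ≠ j → tadpole.Adj i j → X i j = 0 := fun i j hij h => by
    have h1 := congrFun (congrFun hAX i) j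
    have h2 : A i j * X i j = 0 := by simpa [Matrix.hadamard] using h1
    exact (mul_eq_zero.1 h2).resolve_left (hnz i j hij h)
  have hcc : ∀ i j, ∑ k, A i k * X k j - ∑ k, X i k * A k j = 0 := fun i j => by
    have := congrFun (congrFun hc i) j
    simpa [Matrix.mul_apply] using this
  have a02 : A 0 2 = 0 := hz 0 2 (by decide) (by decide)
  have a20 : A 2 0 = 0 := hz 2 0 (by decide) (by decide)
  have a03 : A 0 3 = 0 := hz 0 3 (by decide) (by decide)
  have a30 : A 3 0 = 0 := hz 3 0 (by decide) (by decide)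
  have a04 : A 0 4 = 0 := hz 0 4 (by decide) (by decide)
  have a40 : A 4 0 = 0 := hz 4 0 (by decide) (by decide)
  have a05 : A 0 5 = 0 := hz 0 5 (by decide) (by decide)
  have a50 : A 5 0 = 0 := hz 5 0 (by decide) (by decide)
  have a06 : A 0 6 = 0 := hz 0 6 (by decide) (by decide)
  have a60 : A 6 0 = 0 := hz 6 0 (by decide) (by decide)
  have a07 : A 0 7 = 0 := hz 0 7 (by decide) (by decide)
  have a70 : A 7 0 = 0 := hz 7 0 (by decide) (by decide)
  have a13 : A 1 3 = 0 := hz 1 3 (by decide) (by decide)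
  have a31 : A 3 1 = 0 := hz 3 1 (by decide) (by decide)
  have a14 : A 1 4 = 0 := hz 1 4 (by decide) (by decide)
  have a41 : A 4 1 = 0 := hz 4 1 (by decide) (by decide)
  have a15 : A 1 5 = 0 := hz 1 5 (by decide) (by decide)
  have a51 : A 5 1 = 0 := hz 5 1 (by decide) (by decide)
  have a16 : A 1 6 = 0 := hz 1 6 (by decide) (by decide)
  have a61 : A 6 1 = 0 := hz 6 1 (by decide) (by decide)
  have a17 : A 1 7 = 0 := hz 1 7 (by decide) (by decide)
  have a71 : A 7 1 = 0 := hz 7 1 (by decide) (by decide)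
  have a24 : A 2 4 = 0 := hz 2 4 (by decide) (by decide)
  have a42 : A 4 2 = 0 := hz 4 2 (by decide) (by decide)
  have a25 : A 2 5 = 0 := hz 2 5 (by decide) (by decide)
  have a52 : A 5 2 = 0 := hz 5 2 (by decide) (by decide)
  have a26 : A 2 6 = 0 := hz 2 6 (by decide) (by decide)
  have a62 : A 6 2 = 0 := hz 6 2 (by decide) (by decide)
  have a35 : A 3 5 = 0 := hz 3 5 (by decide) (by decide)
  have a53 : A 5 3 = 0 := hz 5 3 (by decide) (by decide)
  have a36 : A 3 6 = 0 := hz 3 6 (by decide) (by decide)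
  have a63 : A 6 3 = 0 := hz 6 3 (by decide) (by decide)
  have a37 : A 3 7 = 0 := hz 3 7 (by decide) (by decide)
  have a73 : A 7 3 = 0 := hz 7 3 (by decide) (by decide)
  have a46 : A 4 6 = 0 := hz 4 6 (by decide) (by decide)
  have a64 : A 6 4 = 0 := hz 6 4 (by decide) (by decide)
  have a47 : A 4 7 = 0 := hz 4 7 (by decide) (by decide)
  have a74 : A 7 4 = 0 := hz 7 4 (by decide) (by decide)
  have a57 : A 5 7 = 0 := hz 5 7 (by decide) (by decide)
  have a75 : A 7 5 = 0 := hz 7 5 (by decide) (by decide)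
  have n01 : A 0 1 ≠ 0 := hnz 0 1 (by decide) (by decide)
  have s10 : A 1 0 = A 0 1 := as 0 1
  have x01 : X 0 1 = 0 := hxz 0 1 (by decide) (by decide)
  have x10 : X 1 0 = 0 := hxz 1 0 (by decide) (by decide)
  have n12 : A 1 2 ≠ 0 := hnz 1 2 (by decide) (by decide)
  have s21 : A 2 1 = A 1 2 := as 1 2
  have x12 : X 1 2 = 0 := hxz 1 2 (by decide) (by decide)
  have x21 : X 2 1 = 0 := hxz 2 1 (by decide) (by decide)
  have n23 : A 2 3 ≠ 0 := hnz 2 3 (by decide) (by decide)
  have s32 : A 3 2 = A 2 3 := as 2 3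
  have x23 : X 2 3 = 0 := hxz 2 3 (by decide) (by decide)
  have x32 : X 3 2 = 0 := hxz 3 2 (by decide) (by decide)
  have n27 : A 2 7 ≠ 0 := hnz 2 7 (by decide) (by decide)
  have s72 : A 7 2 = A 2 7 := as 2 7
  have x27 : X 2 7 = 0 := hxz 2 7 (by decide) (by decide)
  have x72 : X 7 2 = 0 := hxz 7 2 (by decide) (by decide)
  have n34 : A 3 4 ≠ 0 := hnz 3 4 (by decide) (by decide)
  have s43 : A 4 3 = A 3 4 := as 3 4
  have x34 : X 3 4 = 0 := hxz 3 4 (by decide) (by decide)
  have x43 : X 4 3 = 0 := hxz 4 3 (by decide) (by decide)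
  have n45 : A 4 5 ≠ 0 := hnz 4 5 (by decide) (by decide)
  have s54 : A 5 4 = A 4 5 := as 4 5
  have x45 : X 4 5 = 0 := hxz 4 5 (by decide) (by decide)
  have x54 : X 5 4 = 0 := hxz 5 4 (by decide) (by decide)
  have n56 : A 5 6 ≠ 0 := hnz 5 6 (by decide) (by decide)
  have s65 : A 6 5 = A 5 6 := as 5 6
  have x56 : X 5 6 = 0 := hxz 5 6 (by decide) (by decide)
  have x65 : X 6 5 = 0 := hxz 6 5 (by decide) (by decide)
  have n67 : A 6 7 ≠ 0 := hnz 6 7 (by decide) (by decide)
  have s76 : A 7 6 = A 6 7 := as 6 7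
  have x67 : X 6 7 = 0 := hxz 6 7 (by decide) (by decide)
  have x76 : X 7 6 = 0 := hxz 7 6 (by decide) (by decide)
  have y20 : X 2 0 = X 0 2 := xs 0 2
  have y30 : X 3 0 = X 0 3 := xs 0 3
  have y40 : X 4 0 = X 0 4 := xs 0 4
  have y50 : X 5 0 = X 0 5 := xs 0 5
  have y60 : X 6 0 = X 0 6 := xs 0 6
  have y70 : X 7 0 = X 0 7 := xs 0 7
  have y31 : X 3 1 = X 1 3 := xs 1 3
  have y41 : X 4 1 = X 1 4 := xs 1 4
  have y51 : X 5 1 = X 1 5 := xs 1 5
  have y61 : X 6 1 = X 1 6 := xs 1 6
  have y71 : X 7 1 = X 1 7 := xs 1 7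
  have y42 : X 4 2 = X 2 4 := xs 2 4
  have y52 : X 5 2 = X 2 5 := xs 2 5
  have y62 : X 6 2 = X 2 6 := xs 2 6
  have y53 : X 5 3 = X 3 5 := xs 3 5
  have y63 : X 6 3 = X 3 6 := xs 3 6
  have y73 : X 7 3 = X 3 7 := xs 3 7
  have y64 : X 6 4 = X 4 6 := xs 4 6
  have y74 : X 7 4 = X 4 7 := xs 4 7
  have y75 : X 7 5 = X 5 7 := xs 5 7
  have E01 := hcc 0 1
  simp only [Fin.sum_univ_eight, hx0, a02, a20, a03, a30, a04, a40, a05, a50, a06, a60, a07, a70, a13, a31, a14, a41, a15, a51, a16, a61, a17, a71, a24, a42, a25, a52, a26, a62, a35, a53, a36, a63, a37, a73, a46, a64, a47, a74, a57, a75, s10, x01, x10, s21, x12, x21, s32, x23, x32, s72, x27, x72, s43, x34, x43, s54, x45, x54, s65, x56, x65, s76, x67, x76, y20, y30, y40, y50, y60, y70, y31, y41, y51, y61, y71, y42, y52, y62, y53, y63, y73, y64, y74, y75, mul_zero, zero_mul, add_zero, zero_add, sub_zero, zero_sub] at E01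
  have E02 := hcc 0 2
  simp only [Fin.sum_univ_eight, hx0, a02, a20, a03, a30, a04, a40, a05, a50, a06, a60, a07, a70, a13, a31, a14, a41, a15, a51, a16, a61, a17, a71, a24, a42, a25, a52, a26, a62, a35, a53, a36, a63, a37, a73, a46, a64, a47, a74, a57, a75, s10, x01, x10, s21, x12, x21, s32, x23, x32, s72, x27, x72, s43, x34, x43, s54, x45, x54, s65, x56, x65, s76, x67, x76, y20, y30, y40, y50, y60, y70, y31, y41, y51, y61, y71, y42, y52, y62, y53, y63, y73, y64, y74, y75, mul_zero, zero_mul, add_zero, zero_add, sub_zero, zero_sub] at E02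
  have E03 := hcc 0 3
  simp only [Fin.sum_univ_eight, hx0, a02, a20, a03, a30, a04, a40, a05, a50, a06, a60, a07, a70, a13, a31, a14, a41, a15, a51, a16, a61, a17, a71, a24, a42, a25, a52, a26, a62, a35, a53, a36, a63, a37, a73, a46, a64, a47, a74, a57, a75, s10, x01, x10, s21, x12, x21, s32, x23, x32, s72, x27, x72, s43, x34, x43, s54, x45, x54, s65, x56, x65, s76, x67, x76, y20, y30, y40, y50, y60, y70, y31, y41, y51, y61, y71, y42, y52, y62, y53, y63, y73, y64, y74, y75, mul_zero, zero_mul, add_zero, zero_add, sub_zero, zero_sub] at E03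
  have E04 := hcc 0 4
  simp only [Fin.sum_univ_eight, hx0, a02, a20, a03, a30, a04, a40, a05, a50, a06, a60, a07, a70, a13, a31, a14, a41, a15, a51, a16, a61, a17, a71, a24, a42, a25, a52, a26, a62, a35, a53, a36, a63, a37, a73, a46, a64, a47, a74, a57, a75, s10, x01, x10, s21, x12, x21, s32, x23, x32, s72, x27, x72, s43, x34, x43, s54, x45, x54, s65, x56, x65, s76, x67, x76, y20, y30, y40, y50, y60, y70, y31, y41, y51, y61, y71, y42, y52, y62, y53, y63, y73, y64, y74, y75, mul_zero, zero_mul, add_zero, zero_add, sub_zero, zero_sub] at E04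
  have E05 := hcc 0 5
  simp only [Fin.sum_univ_eight, hx0, a02, a20, a03, a30, a04, a40, a05, a50, a06, a60, a07, a70, a13, a31, a14, a41, a15, a51, a16, a61, a17, a71, a24, a42, a25, a52, a26, a62, a35, a53, a36, a63, a37, a73, a46, a64, a47, a74, a57, a75, s10, x01, x10, s21, x12, x21, s32, x23, x32, s72, x27, x72, s43, x34, x43, s54, x45, x54, s65, x56, x65, s76, x67, x76, y20, y30, y40, y50, y60, y70, y31, y41, y51, y61, y71, y42, y52, y62, y53, y63, y73, y64, y74, y75, mul_zero, zero_mul, add_zero, zero_add, sub_zero, zero_sub] at E05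
  have E07 := hcc 0 7
  simp only [Fin.sum_univ_eight, hx0, a02, a20, a03, a30, a04, a40, a05, a50, a06, a60, a07, a70, a13, a31, a14, a41, a15, a51, a16, a61, a17, a71, a24, a42, a25, a52, a26, a62, a35, a53, a36, a63, a37, a73, a46, a64, a47, a74, a57, a75, s10, x01, x10, s21, x12, x21, s32, x23, x32, s72, x27, x72, s43, x34, x43, s54, x45, x54, s65, x56, x65, s76, x67, x76, y20, y30, y40, y50, y60, y70, y31, y41, y51, y61, y71, y42, y52, y62, y53, y63, y73, y64, y74, y75, mul_zero, zero_mul, add_zero, zero_add, sub_zero, zero_sub] at E07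
  have E12 := hcc 1 2
  simp only [Fin.sum_univ_eight, hx0, a02, a20, a03, a30, a04, a40, a05, a50, a06, a60, a07, a70, a13, a31, a14, a41, a15, a51, a16, a61, a17, a71, a24, a42, a25, a52, a26, a62, a35, a53, a36, a63, a37, a73, a46, a64, a47, a74, a57, a75, s10, x01, x10, s21, x12, x21, s32, x23, x32, s72, x27, x72, s43, x34, x43, s54, x45, x54, s65, x56, x65, s76, x67, x76, y20, y30, y40, y50, y60, y70, y31, y41, y51, y61, y71, y42, y52, y62, y53, y63, y73, y64, y74, y75, mul_zero, zero_mul, add_zero, zero_add, sub_zero, zero_sub] at E12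
  have E13 := hcc 1 3
  simp only [Fin.sum_univ_eight, hx0, a02, a20, a03, a30, a04, a40, a05, a50, a06, a60, a07, a70, a13, a31, a14, a41, a15, a51, a16, a61, a17, a71, a24, a42, a25, a52, a26, a62, a35, a53, a36, a63, a37, a73, a46, a64, a47, a74, a57, a75, s10, x01, x10, s21, x12, x21, s32, x23, x32, s72, x27, x72, s43, x34, x43, s54, x45, x54, s65, x56, x65, s76, x67, x76, y20, y30, y40, y50, y60, y70, y31, y41, y51, y61, y71, y42, y52, y62, y53, y63, y73, y64, y74, y75, mul_zero, zero_mul, add_zero, zero_add, sub_zero, zero_sub] at E13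
  have E14 := hcc 1 4
  simp only [Fin.sum_univ_eight, hx0, a02, a20, a03, a30, a04, a40, a05, a50, a06, a60, a07, a70, a13, a31, a14, a41, a15, a51, a16, a61, a17, a71, a24, a42, a25, a52, a26, a62, a35, a53, a36, a63, a37, a73, a46, a64, a47, a74, a57, a75, s10, x01, x10, s21, x12, x21, s32, x23, x32, s72, x27, x72, s43, x34, x43, s54, x45, x54, s65, x56, x65, s76, x67, x76, y20, y30, y40, y50, y60, y70, y31, y41, y51, y61, y71, y42, y52, y62, y53, y63, y73, y64, y74, y75, mul_zero, zero_mul, add_zero, zero_add, sub_zero, zero_sub] at E14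
  have E15 := hcc 1 5
  simp only [Fin.sum_univ_eight, hx0, a02, a20, a03, a30, a04, a40, a05, a50, a06, a60, a07, a70, a13, a31, a14, a41, a15, a51, a16, a61, a17, a71, a24, a42, a25, a52, a26, a62, a35, a53, a36, a63, a37, a73, a46, a64, a47, a74, a57, a75, s10, x01, x10, s21, x12, x21, s32, x23, x32, s72, x27, x72, s43, x34, x43, s54, x45, x54, s65, x56, x65, s76, x67, x76, y20, y30, y40, y50, y60, y70, y31, y41, y51, y61, y71, y42, y52, y62, y53, y63, y73, y64, y74, y75, mul_zero, zero_mul, add_zero, zero_add, sub_zero, zero_sub] at E15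
  have E17 := hcc 1 7
  simp only [Fin.sum_univ_eight, hx0, a02, a20, a03, a30, a04, a40, a05, a50, a06, a60, a07, a70, a13, a31, a14, a41, a15, a51, a16, a61, a17, a71, a24, a42, a25, a52, a26, a62, a35, a53, a36, a63, a37, a73, a46, a64, a47, a74, a57, a75, s10, x01, x10, s21, x12, x21, s32, x23, x32, s72, x27, x72, s43, x34, x43, s54, x45, x54, s65, x56, x65, s76, x67, x76, y20, y30, y40, y50, y60, y70, y31, y41, y51, y61, y71, y42, y52, y62, y53, y63, y73, y64, y74, y75, mul_zero, zero_mul, add_zero, zero_add, sub_zero, zero_sub] at E17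
  have E23 := hcc 2 3
  simp only [Fin.sum_univ_eight, hx0, a02, a20, a03, a30, a04, a40, a05, a50, a06, a60, a07, a70, a13, a31, a14, a41, a15, a51, a16, a61, a17, a71, a24, a42, a25, a52, a26, a62, a35, a53, a36, a63, a37, a73, a46, a64, a47, a74, a57, a75, s10, x01, x10, s21, x12, x21, s32, x23, x32, s72, x27, x72, s43, x34, x43, s54, x45, x54, s65, x56, x65, s76, x67, x76, y20, y30, y40, y50, y60, y70, y31, y41, y51, y61, y71, y42, y52, y62, y53, y63, y73, y64, y74, y75, mul_zero, zero_mul, add_zero, zero_add, sub_zero, zero_sub] at E23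
  have E24 := hcc 2 4
  simp only [Fin.sum_univ_eight, hx0, a02, a20, a03, a30, a04, a40, a05, a50, a06, a60, a07, a70, a13, a31, a14, a41, a15, a51, a16, a61, a17, a71, a24, a42, a25, a52, a26, a62, a35, a53, a36, a63, a37, a73, a46, a64, a47, a74, a57, a75, s10, x01, x10, s21, x12, x21, s32, x23, x32, s72, x27, x72, s43, x34, x43, s54, x45, x54, s65, x56, x65, s76, x67, x76, y20, y30, y40, y50, y60, y70, y31, y41, y51, y61, y71, y42, y52, y62, y53, y63, y73, y64, y74, y75, mul_zero, zero_mul, add_zero, zero_add, sub_zero, zero_sub] at E24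
  have E26 := hcc 2 6
  simp only [Fin.sum_univ_eight, hx0, a02, a20, a03, a30, a04, a40, a05, a50, a06, a60, a07, a70, a13, a31, a14, a41, a15, a51, a16, a61, a17, a71, a24, a42, a25, a52, a26, a62, a35, a53, a36, a63, a37, a73, a46, a64, a47, a74, a57, a75, s10, x01, x10, s21, x12, x21, s32, x23, x32, s72, x27, x72, s43, x34, x43, s54, x45, x54, s65, x56, x65, s76, x67, x76, y20, y30, y40, y50, y60, y70, y31, y41, y51, y61, y71, y42, y52, y62, y53, y63, y73, y64, y74, y75, mul_zero, zero_mul, add_zero, zero_add, sub_zero, zero_sub] at E26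
  have E27 := hcc 2 7
  simp only [Fin.sum_univ_eight, hx0, a02, a20, a03, a30, a04, a40, a05, a50, a06, a60, a07, a70, a13, a31, a14, a41, a15, a51, a16, a61, a17, a71, a24, a42, a25, a52, a26, a62, a35, a53, a36, a63, a37, a73, a46, a64, a47, a74, a57, a75, s10, x01, x10, s21, x12, x21, s32, x23, x32, s72, x27, x72, s43, x34, x43, s54, x45, x54, s65, x56, x65, s76, x67, x76, y20, y30, y40, y50, y60, y70, y31, y41, y51, y61, y71, y42, y52, y62, y53, y63, y73, y64, y74, y75, mul_zero, zero_mul, add_zero, zero_add, sub_zero, zero_sub] at E27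
  have E34 := hcc 3 4
  simp only [Fin.sum_univ_eight, hx0, a02, a20, a03, a30, a04, a40, a05, a50, a06, a60, a07, a70, a13, a31, a14, a41, a15, a51, a16, a61, a17, a71, a24, a42, a25, a52, a26, a62, a35, a53, a36, a63, a37, a73, a46, a64, a47, a74, a57, a75, s10, x01, x10, s21, x12, x21, s32, x23, x32, s72, x27, x72, s43, x34, x43, s54, x45, x54, s65, x56, x65, s76, x67, x76, y20, y30, y40, y50, y60, y70, y31, y41, y51, y61, y71, y42, y52, y62, y53, y63, y73, y64, y74, y75, mul_zero, zero_mul, add_zero, zero_add, sub_zero, zero_sub] at E34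
  have E35 := hcc 3 5
  simp only [Fin.sum_univ_eight, hx0, a02, a20, a03, a30, a04, a40, a05, a50, a06, a60, a07, a70, a13, a31, a14, a41, a15, a51, a16, a61, a17, a71, a24, a42, a25, a52, a26, a62, a35, a53, a36, a63, a37, a73, a46, a64, a47, a74, a57, a75, s10, x01, x10, s21, x12, x21, s32, x23, x32, s72, x27, x72, s43, x34, x43, s54, x45, x54, s65, x56, x65, s76, x67, x76, y20, y30, y40, y50, y60, y70, y31, y41, y51, y61, y71, y42, y52, y62, y53, y63, y73, y64, y74, y75, mul_zero, zero_mul, add_zero, zero_add, sub_zero, zero_sub] at E35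
  have E37 := hcc 3 7
  simp only [Fin.sum_univ_eight, hx0, a02, a20, a03, a30, a04, a40, a05, a50, a06, a60, a07, a70, a13, a31, a14, a41, a15, a51, a16, a61, a17, a71, a24, a42, a25, a52, a26, a62, a35, a53, a36, a63, a37, a73, a46, a64, a47, a74, a57, a75, s10, x01, x10, s21, x12, x21, s32, x23, x32, s72, x27, x72, s43, x34, x43, s54, x45, x54, s65, x56, x65, s76, x67, x76, y20, y30, y40, y50, y60, y70, y31, y41, y51, y61, y71, y42, y52, y62, y53, y63, y73, y64, y74, y75, mul_zero, zero_mul, add_zero, zero_add, sub_zero, zero_sub] at E37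
  have E45 := hcc 4 5
  simp only [Fin.sum_univ_eight, hx0, a02, a20, a03, a30, a04, a40, a05, a50, a06, a60, a07, a70, a13, a31, a14, a41, a15, a51, a16, a61, a17, a71, a24, a42, a25, a52, a26, a62, a35, a53, a36, a63, a37, a73, a46, a64, a47, a74, a57, a75, s10, x01, x10, s21, x12, x21, s32, x23, x32, s72, x27, x72, s43, x34, x43, s54, x45, x54, s65, x56, x65, s76, x67, x76, y20, y30, y40, y50, y60, y70, y31, y41, y51, y61, y71, y42, y52, y62, y53, y63, y73, y64, y74, y75, mul_zero, zero_mul, add_zero, zero_add, sub_zero, zero_sub] at E45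
  have E46 := hcc 4 6
  simp only [Fin.sum_univ_eight, hx0, a02, a20, a03, a30, a04, a40, a05, a50, a06, a60, a07, a70, a13, a31, a14, a41, a15, a51, a16, a61, a17, a71, a24, a42, a25, a52, a26, a62, a35, a53, a36, a63, a37, a73, a46, a64, a47, a74, a57, a75, s10, x01, x10, s21, x12, x21, s32, x23, x32, s72, x27, x72, s43, x34, x43, s54, x45, x54, s65, x56, x65, s76, x67, x76, y20, y30, y40, y50, y60, y70, y31, y41, y51, y61, y71, y42, y52, y62, y53, y63, y73, y64, y74, y75, mul_zero, zero_mul, add_zero, zero_add, sub_zero, zero_sub] at E46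
  have E56 := hcc 5 6
  simp only [Fin.sum_univ_eight, hx0, a02, a20, a03, a30, a04, a40, a05, a50, a06, a60, a07, a70, a13, a31, a14, a41, a15, a51, a16, a61, a17, a71, a24, a42, a25, a52, a26, a62, a35, a53, a36, a63, a37, a73, a46, a64, a47, a74, a57, a75, s10, x01, x10, s21, x12, x21, s32, x23, x32, s72, x27, x72, s43, x34, x43, s54, x45, x54, s65, x56, x65, s76, x67, x76, y20, y30, y40, y50, y60, y70, y31, y41, y51, y61, y71, y42, y52, y62, y53, y63, y73, y64, y74, y75, mul_zero, zero_mul, add_zero, zero_add, sub_zero, zero_sub] at E56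
  have E57 := hcc 5 7
  simp only [Fin.sum_univ_eight, hx0, a02, a20, a03, a30, a04, a40, a05, a50, a06, a60, a07, a70, a13, a31, a14, a41, a15, a51, a16, a61, a17, a71, a24, a42, a25, a52, a26, a62, a35, a53, a36, a63, a37, a73, a46, a64, a47, a74, a57, a75, s10, x01, x10, s21, x12, x21, s32, x23, x32, s72, x27, x72, s43, x34, x43, s54, x45, x54, s65, x56, x65, s76, x67, x76, y20, y30, y40, y50, y60, y70, y31, y41, y51, y61, y71, y42, y52, y62, y53, y63, y73, y64, y74, y75, mul_zero, zero_mul, add_zero, zero_add, sub_zero, zero_sub] at E57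
  have E67 := hcc 6 7
  simp only [Fin.sum_univ_eight, hx0, a02, a20, a03, a30, a04, a40, a05, a50, a06, a60, a07, a70, a13, a31, a14, a41, a15, a51, a16, a61, a17, a71, a24, a42, a25, a52, a26, a62, a35, a53, a36, a63, a37, a73, a46, a64, a47, a74, a57, a75, s10, x01, x10, s21, x12, x21, s32, x23, x32, s72, x27, x72, s43, x34, x43, s54, x45, x54, s65, x56, x65, s76, x67, x76, y20, y30, y40, y50, y60, y70, y31, y41, y51, y61, y71, y42, y52, y62, y53, y63, y73, y64, y74, y75, mul_zero, zero_mul, add_zero, zero_add, sub_zero, zero_sub] at E67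
  have X02 : X 0 2 = 0 := by
    have : A 1 2 * X 0 2 = 0 := by linear_combination (-1) * E01
    exact (mul_eq_zero.1 this).resolve_left n12
  have k1 : A 3 4 * A 2 3 * X 2 4 = A 6 7 * A 2 7 * X 2 6 := by
    linear_combination A 3 4 * E34 + A 4 5 * E45 + A 5 6 * E56 + A 6 7 * E67
  have X13 : X 1 3 = 0 := by
    have h1 : A 2 3 * X 1 3 + A 2 7 * X 1 7 = 0 := by
      linear_combination (-1) * E12 + A 0 1 * X02
    have h2 : A 1 2 * (A 2 3 * X 1 3 - A 2 7 * X 1 7) = 0 := by
      linear_combination A 2 3 * E23 - A 2 7 * E27 + k1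
    have h3 : A 2 3 * X 1 3 - A 2 7 * X 1 7 = 0 := (mul_eq_zero.1 h2).resolve_left n12
    have h4 : A 2 3 * X 1 3 = 0 := by linear_combination (1/2) * h1 + (1/2) * h3
    exact (mul_eq_zero.1 h4).resolve_left n23
  have X17 : X 1 7 = 0 := by
    have h1 : A 2 7 * X 1 7 = 0 := by
      linear_combination (-1) * E12 + A 0 1 * X02 - A 2 3 * X13
    exact (mul_eq_zero.1 h1).resolve_left n27
  -- second level
  have k24 : A 4 5 * (A 2 3 * X 2 4) = A 4 5 * (A 4 5 * X 3 5) := by
    linear_combination (A 4 5) * E34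
  have k35 : A 3 4 * A 2 3 * X 2 4 = A 3 4 * A 4 5 * X 3 5 := by
    linear_combination (A 3 4) * E34
  have k46 : A 3 4 * A 2 3 * X 2 4 = A 4 5 * A 5 6 * X 4 6 := by
    linear_combination (A 3 4) * E34 + (A 4 5) * E45
  have k57 : A 3 4 * A 2 3 * X 2 4 = A 5 6 * A 6 7 * X 5 7 := by
    linear_combination (A 3 4) * E34 + (A 4 5) * E45 + (A 5 6) * E56
  have k37 : A 3 4 * A 2 3 * X 2 4 = A 2 7 * A 2 3 * X 3 7 := by
    linear_combination (-A 2 3) * E23 + (A 2 3) * (A 1 2) * X13
  have h1 : A 2 3 * X 0 3 + A 2 7 * X 0 7 = 0 := by linear_combination (-1) * E02 + (A 0 0 - A 2 2) * X02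
  have h2 : A 0 1 * X 0 3 = A 3 4 * X 1 4 := by
    linear_combination E13 - (A 1 1 - A 3 3) * X13
  have h3 : A 0 1 * X 0 7 = A 6 7 * X 1 6 := by
    linear_combination E17 - (A 1 1 - A 7 7) * X17
  have h4 : A 1 2 * (A 2 3 * A 3 4 * X 1 4 - A 2 7 * A 6 7 * X 1 6) = 0 := by
    linear_combination (A 2 3 * A 3 4) * E24 + (A 3 4 * A 4 5) * E35 + (A 4 5 * A 5 6) * E46
      + (A 5 6 * A 6 7) * E57 - (A 6 7 * A 2 7) * E26 - (A 2 7 * A 2 3) * E37
      + (A 3 3 - A 5 5) * k35 + (A 4 4 - A 6 6) * k46 + (A 5 5 - A 7 7) * k57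
      + (A 6 6 - A 2 2) * k1 + (A 7 7 - A 3 3) * k37
  have h5 : A 2 3 * A 3 4 * X 1 4 - A 2 7 * A 6 7 * X 1 6 = 0 := (mul_eq_zero.1 h4).resolve_left n12
  have h6 : A 2 3 * A 3 4 * X 1 4 + A 2 7 * A 6 7 * X 1 6 = 0 := by
    linear_combination A 0 1 * h1 - A 2 3 * h2 - A 2 7 * h3
  have X14 : X 1 4 = 0 := by
    have : A 2 3 * A 3 4 * X 1 4 = 0 := by linear_combination (1/2) * h5 + (1/2) * h6
    exact (mul_eq_zero.1 this).resolve_left (mul_ne_zero n23 n34)
  have X16 : X 1 6 = 0 := by
    have : A 2 7 * A 6 7 * X 1 6 = 0 := by linear_combination (1/2) * h6 - (1/2) * h5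
    exact (mul_eq_zero.1 this).resolve_left (mul_ne_zero n27 n67)
  have X03 : X 0 3 = 0 := by
    have : A 0 1 * X 0 3 = 0 := by rw [h2, X14, mul_zero]
    exact (mul_eq_zero.1 this).resolve_left n01
  have X07 : X 0 7 = 0 := by
    have : A 0 1 * X 0 7 = 0 := by rw [h3, X16, mul_zero]
    exact (mul_eq_zero.1 this).resolve_left n01
  have X04 : X 0 4 = 0 := by
    have : A 3 4 * X 0 4 = 0 := by
      rw [X02, X03, X13] at E03
      linear_combination (-1) * E03
    exact (mul_eq_zero.1 this).resolve_left n34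
  have X06 : X 0 6 = 0 := by
    have : A 6 7 * X 0 6 = 0 := by
      rw [X02, X07, X17] at E07
      linear_combination (-1) * E07
    exact (mul_eq_zero.1 this).resolve_left n67
  have X05 : X 0 5 = 0 := by
    have : A 4 5 * X 0 5 = 0 := by
      rw [X03, X04, X14] at E04
      linear_combination (-1) * E04
    exact (mul_eq_zero.1 this).resolve_left n45
  have X15 : X 1 5 = 0 := by
    have : A 0 1 * X 1 5 = 0 := by
      rw [X04, X05, X06] at E05
      linear_combination E05
    exact (mul_eq_zero.1 this).resolve_left n01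
  have X24 : X 2 4 = 0 := by
    have : A 1 2 * X 2 4 = 0 := by
      rw [X04, X13, X14, X15] at E14
      linear_combination E14
    exact (mul_eq_zero.1 this).resolve_left n12
  have X35 : X 3 5 = 0 := by
    have : A 3 4 * A 4 5 * X 3 5 = 0 := by rw [← k35, X24, mul_zero]
    exact (mul_eq_zero.1 this).resolve_left (mul_ne_zero n34 n45)
  have X46 : X 4 6 = 0 := by
    have : A 4 5 * A 5 6 * X 4 6 = 0 := by rw [← k46, X24, mul_zero]
    exact (mul_eq_zero.1 this).resolve_left (mul_ne_zero n45 n56)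
  have X57 : X 5 7 = 0 := by
    have : A 5 6 * A 6 7 * X 5 7 = 0 := by rw [← k57, X24, mul_zero]
    exact (mul_eq_zero.1 this).resolve_left (mul_ne_zero n56 n67)
  have X26 : X 2 6 = 0 := by
    have : A 6 7 * A 2 7 * X 2 6 = 0 := by rw [← k1, X24, mul_zero]
    exact (mul_eq_zero.1 this).resolve_left (mul_ne_zero n67 n27)
  have X37 : X 3 7 = 0 := by
    have : A 2 7 * A 2 3 * X 3 7 = 0 := by rw [← k37, X24, mul_zero]
    exact (mul_eq_zero.1 this).resolve_left (mul_ne_zero n27 n23)
  have X25 : X 2 5 = 0 := by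
    have : A 1 2 * X 2 5 = 0 := by
      rw [X05, X14, X15, X16] at E15
      linear_combination E15
    exact (mul_eq_zero.1 this).resolve_left n12
  have X36 : X 3 6 = 0 := by
    have : A 5 6 * X 3 6 = 0 := by
      rw [X25, X35] at E35
      linear_combination (-1) * E35
    exact (mul_eq_zero.1 this).resolve_left n56
  have X47 : X 4 7 = 0 := by
    have : A 6 7 * X 4 7 = 0 := by
      rw [X36, X46] at E46
      linear_combination (-1) * E46
    exact (mul_eq_zero.1 this).resolve_left n67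
  ext i j
  simp only [Matrix.zero_apply]
  fin_cases i <;> fin_cases j <;> simp [*]

theorem tadpole_connected : tadpole.Connected := by
  have h : ∀ i : Fin 8, tadpole.Reachable 2 i := by
    have h21 : tadpole.Adj 2 1 := by decide
    have h10 : tadpole.Adj 1 0 := by decide
    have h23 : tadpole.Adj 2 3 := by decide
    have h34 : tadpole.Adj 3 4 := by decide
    have h45 : tadpole.Adj 4 5 := by decide
    have h56 : tadpole.Adj 5 6 := by decide
    have h67 : tadpole.Adj 6 7 := by decide
    intro i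
    fin_cases i
    · exact h21.reachable.trans h10.reachable
    · exact h21.reachable
    · exact SimpleGraph.Reachable.refl _
    · exact h23.reachable
    · exact h23.reachable.trans h34.reachable
    · exact (h23.reachable.trans h34.reachable).trans h45.reachable
    · exact ((h23.reachable.trans h34.reachable).trans h45.reachable).trans h56.reachable
    · exact (((h23.reachable.trans h34.reachable).trans h45.reachable).trans h56.reachable).trans
        h67.reachable
  exact (SimpleGraph.connected_iff_exists_forall_reachable _).2 ⟨2, h⟩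

theorem cycle_nbr {v : Fin 8} (c : tadpole.Walk v v) (hc : c.IsCycle) {a : Fin 8}
    (ha : a ∈ c.support) (T : Finset (Fin 8))
    (hT : ∀ b, tadpole.Adj a b → b ∈ c.support → b ∈ T) :
    2 ≤ T.card ∧ (T.card = 2 → ∀ b ∈ T, b ∈ c.support) := by
  have h2 := hc.ncard_neighborSet_toSubgraph_eq_two ha
  have hsub : c.toSubgraph.neighborSet a ⊆ (T : Set (Fin 8)) := by
    intro b hb
    have hb' : c.toSubgraph.Adj a b := hb
    exact hT b hb'.adj_sub (c.mem_verts_toSubgraph.1 hb'.symm.fst_mem)
  have hle := Set.ncard_le_ncard hsub (Finset.finite_toSet T)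
  rw [h2, Set.ncard_coe_finset] at hle
  refine ⟨hle, fun hT2 b hb => ?_⟩
  have heq : c.toSubgraph.neighborSet a = (T : Set (Fin 8)) := by
    apply Set.eq_of_subset_of_ncard_le hsub
    rw [h2, Set.ncard_coe_finset, hT2]
  have hb2 : b ∈ c.toSubgraph.neighborSet a := by rw [heq]; exact hb
  have hb' : c.toSubgraph.Adj a b := hb2
  exact c.mem_verts_toSubgraph.1 hb'.symm.fst_mem

theorem cycle_length {v : Fin 8} (c : tadpole.Walk v v) (hc : c.IsCycle) : c.length = 6 := by
  have h0 : (0 : Fin 8) ∉ c.support := fun h => by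
    have := (cycle_nbr c hc h {1} (by intro b hb hb2; clear hb2; revert hb; revert b; decide)).1
    simp at this
  have h1 : (1 : Fin 8) ∉ c.support := fun h => by
    have := (cycle_nbr c hc h {2} (by
      intro b hb hb2
      by_cases hb0 : b = 0
      · exact absurd (hb0 ▸ hb2) h0
      · revert hb hb0; clear hb2; revert b; decide)).1
    simp at this
  have step : ∀ a : Fin 8, 2 ≤ a → a ∈ c.support → ∀ b : Fin 8, 2 ≤ b → tadpole.Adj a b →
      b ∈ c.support := by
    intro a ha has b hb hab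
    refine (cycle_nbr c hc has (Finset.univ.filter fun b => tadpole.Adj a b ∧ 2 ≤ b) ?_).2 ?_ b ?_
    · intro b hb hb2
      rw [Finset.mem_filter]
      refine ⟨Finset.mem_univ _, hb, ?_⟩
      by_contra hlt
      have : b = 0 ∨ b = 1 := by revert hlt; clear hb hb2; revert b; decide
      rcases this with rfl | rfl
      · exact h0 hb2
      · exact h1 hb2
    · clear hab hb has; clear b; revert ha; revert a; decide
    · rw [Finset.mem_filter]
      exact ⟨Finset.mem_univ _, hab, hb⟩
  have hv : (2 : Fin 8) ≤ v := by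
    have hvs : v ∈ c.support := c.start_mem_support
    by_contra hlt
    have : v = 0 ∨ v = 1 := by revert hlt; clear hvs step h0 h1 hc; clear c; revert v; decide
    rcases this with rfl | rfl
    · exact h0 hvs
    · exact h1 hvs
  have all : ∀ b : Fin 8, 2 ≤ b → b ∈ c.support := by
    have e : ∀ a b : Fin 8, (2 ≤ a → a ∈ c.support → 2 ≤ b → tadpole.Adj a b → b ∈ c.support) :=
      fun a b ha has hb hab => step a ha has b hb hab
    have key : ∀ (P : Fin 8 → Prop), (∀ a b : Fin 8, 2 ≤ a → P a → 2 ≤ b → tadpole.Adj a b → P b) →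
        P v → P 2 ∧ P 3 ∧ P 4 ∧ P 5 ∧ P 6 ∧ P 7 := by
      intro P hP hPv
      have u1 : P 2 → P 3 := fun h => hP 2 3 (by decide) h (by decide) (by decide)
      have u2 : P 3 → P 4 := fun h => hP 3 4 (by decide) h (by decide) (by decide)
      have u3 : P 4 → P 5 := fun h => hP 4 5 (by decide) h (by decide) (by decide)
      have u4 : P 5 → P 6 := fun h => hP 5 6 (by decide) h (by decide) (by decide)
      have u5 : P 6 → P 7 := fun h => hP 6 7 (by decide) h (by decide) (by decide)
      have u6 : P 7 → P 2 := fun h => hP 7 2 (by decide) h (by decide) (by decide)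
      have hv' : v = 2 ∨ v = 3 ∨ v = 4 ∨ v = 5 ∨ v = 6 ∨ v = 7 := by
        revert hv; clear hPv hP u1 u2 u3 u4 u5 u6 e step h0 h1 hc; clear P c; revert v; decide
      rcases hv' with rfl | rfl | rfl | rfl | rfl | rfl <;> tauto
    have hk := key (fun b => b ∈ c.support) (fun a b ha has hb hab => e a b ha has hb hab)
      c.start_mem_support
    intro b hb
    have hb' : b = 2 ∨ b = 3 ∨ b = 4 ∨ b = 5 ∨ b = 6 ∨ b = 7 := by
      revert hb; clear hk key e step h0 h1 hv hc; clear c; revert b; decide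
    rcases hb' with rfl | rfl | rfl | rfl | rfl | rfl <;> tauto
  have hnd : c.support.tail.Nodup := hc.support_nodup
  have hset : c.support.tail.toFinset = (Finset.univ.filter fun b : Fin 8 => 2 ≤ b) := by
    ext b
    rw [List.mem_toFinset, Finset.mem_filter]
    constructor
    · intro hb
      have hb2 : b ∈ c.support := List.mem_of_mem_tail hb
      refine ⟨Finset.mem_univ _, ?_⟩
      by_contra hlt
      have : b = 0 ∨ b = 1 := by revert hlt; clear hb hb2; revert b; decide
      rcases this with rfl | rfl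
      · exact h0 hb2
      · exact h1 hb2
    · rintro ⟨_, hb⟩
      have hb2 := all b hb
      rcases c.mem_support_iff.1 hb2 with h | h
      · rw [h]
        exact SimpleGraph.Walk.end_mem_tail_support hc.not_nil
      · exact h
  have hlen : c.support.tail.length = c.length := by
    rw [List.length_tail, c.length_support]; rfl
  rw [← hlen, ← List.toFinset_card_of_nodup hnd, hset]
  decide

/-- `T_{6,2}` is connected, has as many edges as vertices (so it is unicyclic), its cycle
has length six, and every matrix of `𝒮(T_{6,2})` has the Strong Spectral Property. -/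
theorem result :
    tadpole.Connected ∧ tadpole.edgeFinset.card = Fintype.card (Fin 8) ∧
      (∀ (v : Fin 8) (c : tadpole.Walk v v), c.IsCycle → c.length = 6) ∧
      (∃ (v : Fin 8) (c : tadpole.Walk v v), c.IsCycle ∧ c.length = 6) ∧
      ∀ A ∈ S tadpole, HasSSP A := by
  refine ⟨tadpole_connected, by decide, fun v c hc => cycle_length c hc, ?_, ?_⟩
  · have h72 : tadpole.Adj 7 2 := by decide
    have h23 : tadpole.Adj 2 3 := by decide
    have h34 : tadpole.Adj 3 4 := by decide
    have h45 : tadpole.Adj 4 5 := by decide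
    have h56 : tadpole.Adj 5 6 := by decide
    have h67 : tadpole.Adj 6 7 := by decide
    refine ⟨2, .cons h23 (.cons h34 (.cons h45 (.cons h56 (.cons h67 (.cons h72 .nil))))), ?_, rfl⟩
    rw [SimpleGraph.Walk.isCycle_def, SimpleGraph.Walk.isTrail_def]
    simp
  · exact fun A hA X hX h1 h2 h3 => key A X hA hX h1 h2 h3

end Pool.Agent.Results.MP_34deb4_co.TadpoleSSP
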